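import Pool.Agent.H72.UV.Targets
import Pool.Agent.H72.UV.Basic
import Pool.Agent.H59.TV.Cell2

/-!
Module LEV: countably many level-`m` isomorphism classes in the hull.
-/

set_option autoImplicit false

open Set Filter Topology

namespace Pool.Agent.H39.UV

open Pool.Agent.H72.UV
open Pool.Agent.H71 (Fx orb acl Clsd)

/-- the closure of a group of permutations -/
def clo (G : Subgroup (Equiv.Perm ℕ)) : Subgroup (Equiv.Perm ℕ) where
  carrier := {g | ∀ F : Finset ℕ, ∃ h ∈ G, ∀ a ∈ F, h a = g a}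
  mul_mem' := by
    classical
    rintro a b ha hb F
    obtain ⟨h', h1, h2⟩ := hb F
    obtain ⟨h, h3, h4⟩ := ha (F.image b)
    refine ⟨h * h', G.mul_mem h3 h1, fun x hx => ?_⟩
    rw [Equiv.Perm.mul_apply, Equiv.Perm.mul_apply, h2 x hx, h4 _ (Finset.mem_image_of_mem _ hx)]
  one_mem' := fun F => ⟨1, G.one_mem, fun _ _ => rfl⟩
  inv_mem' := by
    classical
    rintro a ha F
    obtain ⟨h, h1, h2⟩ := ha (F.image (a⁻¹ : Equiv.Perm ℕ))
    refine ⟨h⁻¹, G.inv_mem h1, fun x hx => ?_⟩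
    have := h2 _ (Finset.mem_image_of_mem _ hx)
    rw [Equiv.Perm.inv_eq_iff_eq, this]
    simp

lemma le_clo (G : Subgroup (Equiv.Perm ℕ)) : G ≤ clo G := fun g hg _ => ⟨g, hg, fun _ _ => rfl⟩

lemma clsd_clo (G : Subgroup (Equiv.Perm ℕ)) : Clsd (clo G) := by
  intro g hg F
  obtain ⟨h, h1, h2⟩ := hg F
  obtain ⟨h', h3, h4⟩ := h1 F
  exact ⟨h', h3, fun a ha => (h4 a ha).trans (h2 a ha)⟩

lemma orb_clo (G : Subgroup (Equiv.Perm ℕ)) (F : Finset ℕ) (a : ℕ) :
    orb (clo G) F a = orb G F a := by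
  classical
  apply Set.Subset.antisymm
  · rintro b ⟨h, ⟨hh, hF⟩, rfl⟩
    obtain ⟨g, hg, hg2⟩ := hh (insert a F)
    refine ⟨g, ⟨hg, fun x hx => ?_⟩, hg2 a (Finset.mem_insert_self _ _)⟩
    rw [hg2 x (Finset.mem_insert_of_mem hx), hF x hx]
  · rintro b ⟨h, ⟨hh, hF⟩, rfl⟩
    exact ⟨h, ⟨le_clo G hh, hF⟩, rfl⟩

lemma acl_clo (G : Subgroup (Equiv.Perm ℕ)) (F : Finset ℕ) : acl (clo G) F = acl G F := by
  ext a
  change (orb (clo G) F a).Finite ↔ (orb G F a).Finite
  rw [orb_clo]

theorem lev : T_GRP → T_EMB → T_LEV := by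
  classical
  intro hgrp hemb C m c hol
  set G := FinAut (tr m c) with hG
  have hcell : Cell G := hgrp G (finry_finAut _) hol
  have hrange : (Set.range (orb (clo G) ∅)).Finite := by
    have : orb (clo G) ∅ = orb G ∅ := funext fun a => orb_clo G ∅ a
    rw [this]
    exact hcell.pts
  obtain ⟨R, hR, hR2⟩ := Pool.Agent.H59.TV.countable_orbits_of_trivial (clo G) (clsd_clo G)
    (fun F => by rw [acl_clo]; exact hcell.fin F)
    (fun F a ha => by
      rw [acl_clo] at ha
      rcases hcell.dis F a ha with h | ⟨b, hb, h⟩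
      · left
        rw [acl_clo]
        exact h
      · right
        refine ⟨b, hb, ?_⟩
        rw [acl_clo]
        exact h)
    (fun F a b ha hb hab => by
      rw [acl_clo] at ha hb
      rw [orb_clo] at hab ⊢
      exact hcell.stat F a b ha hb hab) hrange
  -- elements of the closure preserve the level-`m` reduct
  have haut : ∀ h ∈ clo G, ∀ l : List ℕ, l.length ≤ m → c (l.map h) = c l := by
    intro h hh l hl
    obtain ⟨g, hg, hg2⟩ := hh l.toFinset
    have h1 : l.map h = l.map g :=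
      List.map_congr_left fun x hx => (hg2 x (List.mem_toFinset.2 hx)).symm
    rw [h1]
    exact (mem_finAut_tr.1 hg).2 l hl
  let P : Set ℕ → Str ℕ C → Prop := fun B d => ∃ f : ℕ → ℕ, Function.Injective f ∧
    (∀ l : List ℕ, l.length ≤ m → c (l.map f) = d l) ∧ ∃ h ∈ clo G, h '' range f = B
  refine ⟨{d | ∃ B ∈ R, ∃ hB : ∃ d, P B d, d = hB.choose}, ?_, ?_⟩
  · have : {d | ∃ B ∈ R, ∃ hB : ∃ d, P B d, d = hB.choose} ⊆
        (fun B : Set ℕ => if hB : ∃ d, P B d then hB.choose else c) '' R := by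
      rintro d ⟨B, hB, hB2, rfl⟩
      refine ⟨B, hB, ?_⟩
      simp only [dif_pos hB2]
    exact (hR.image _).mono this
  · intro d hd
    obtain ⟨f, hf, hf2⟩ := hemb C m c d hol hd
    obtain ⟨B, hB, h, hh, hhB⟩ := hR2 (range f)
    have hPB : ∃ d, P B d := ⟨d, f, hf, hf2, h, hh, hhB⟩
    refine ⟨hPB.choose, ⟨B, hB, hPB, rfl⟩, ?_⟩
    obtain ⟨f', hf', hf2', h', hh', hhB'⟩ := hPB.choose_spec
    set d' := hPB.choose with hd'
    have hi1 : Function.Injective (h ∘ f) := h.injective.comp hf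
    have hi2 : Function.Injective (h' ∘ f') := h'.injective.comp hf'
    have hr : range (h ∘ f) = range (h' ∘ f') := by
      rw [range_comp, range_comp, hhB, hhB']
    let φ : Equiv.Perm ℕ := (Equiv.ofInjective _ hi1).trans
      ((Equiv.setCongr hr).trans (Equiv.ofInjective _ hi2).symm)
    have hφ : ∀ x, h' (f' (φ x)) = h (f x) := by
      intro x
      have h1 : (Equiv.ofInjective _ hi2) (φ x) =
          (Equiv.setCongr hr) ((Equiv.ofInjective _ hi1) x) := by
        simp [φ]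
      have h2 := congrArg Subtype.val h1
      simpa using h2
    refine ⟨φ, fun l hl => ?_⟩
    have a1 := hf2' (l.map φ) (by simpa using hl)
    have a2 := hf2 l hl
    have a3 := haut h' hh' ((l.map φ).map f') (by simpa using hl)
    have a4 := haut h hh (l.map f) (by simpa using hl)
    rw [← a1, ← a2, ← a3, ← a4]
    congr 1
    simp only [List.map_map]
    refine List.map_congr_left fun x _ => ?_
    exact hφ x

end Pool.Agent.H39.UV
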