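import Pool.Agent.H72.UV.Targets
import Pool.Agent.H72.UV.Basic

/-!
Modules LIFT and EMB: compactness arguments with a free ultrafilter on `ℕ`.
-/

set_option autoImplicit false

open Set Filter Topology

namespace Pool.Agent.H39.UV

open Pool.Agent.H72.UV
open Pool.Agent.H71 (Fx orb acl)

/-- a free ultrafilter on `ℕ` -/
noncomputable abbrev HU : Ultrafilter ℕ := Filter.hyperfilter ℕ

lemma hu_ge (n : ℕ) : ∀ᶠ k in (HU : Filter ℕ), n ≤ k :=
  _root_.Nat.hyperfilter_le_atTop (Filter.eventually_ge_atTop n)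

theorem lift : T_LIFT := by
  classical
  intro M A C hA c m e hfin hbel
  obtain ⟨code, hcode⟩ := hA.exists_injective_nat
  -- increasing finite sets
  have hFfin : ∀ k : ℕ, {a : A | code a < k}.Finite := fun k =>
    Set.Finite.preimage hcode.injOn (Set.finite_Iio k)
  let F : ℕ → Finset A := fun k => (hFfin k).toFinset
  have hF : ∀ k a, a ∈ F k ↔ code a < k := fun k a => by simp [F]
  choose f hf1 hf2 using fun k => hbel (F k)
  -- lists over finite sets
  have hbig : ∀ S : Finset A, ∀ᶠ k in (HU : Filter ℕ), S ⊆ F k := by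
    intro S
    filter_upwards [hu_ge (S.sup code + 1)] with k hk x hx
    rw [hF]
    have : code x ≤ S.sup code := Finset.le_sup hx
    omega
  -- the type of the restriction to `S` is almost everywhere constant
  have hconst : ∀ S : Finset A, ∃ τ : List A → C, ∀ᶠ k in (HU : Filter ℕ),
      ∀ l : List A, (∀ x ∈ l, x ∈ S) → c (l.map (f k)) = τ l := by
    intro S
    let n := S.card
    let en : S ≃ Fin n := S.equivFin
    have h1 := exists_ae HU (fun k => fun l : List (Fin n) =>
      c (l.map fun i => f k (en.symm i))) ((hfin n).subset (by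
        rintro _ ⟨k, rfl⟩
        exact ⟨fun i => f k (en.symm i), rfl⟩))
    obtain ⟨v, -, hv⟩ := h1
    refine ⟨fun l => if h : ∀ x ∈ l, x ∈ S then
      v (l.attach.map fun x => en ⟨x.1, h x.1 x.2⟩) else c (l.map (f 0)), ?_⟩
    filter_upwards [hv] with k hk l hl
    rw [dif_pos hl]
    have h2 := congrFun hk (l.attach.map fun x => en ⟨x.1, hl x.1 x.2⟩)
    rw [← h2]
    simp only [List.map_map]
    congr 1
    conv_lhs => rw [← List.attach_map_subtype_val l, List.map_map]
    congr 1
    funext x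
    simp
  choose τ hτ using hconst
  refine ⟨fun l => τ l.toFinset l, ?_, ?_⟩
  · intro S
    have h1 : ∀ᶠ k in (HU : Filter ℕ), S ⊆ F k := hbig S
    obtain ⟨k, hk1, hk2⟩ := (h1.and (hτ S)).exists
    refine ⟨f k, (hf1 k).mono (by exact_mod_cast hk1), fun l hl => ?_⟩
    rw [hk2 l hl]
    obtain ⟨k', hk1', hk2'⟩ := ((hτ S).and (hτ l.toFinset)).exists
    rw [← hk1' l hl, hk2' l (fun x hx => List.mem_toFinset.2 hx)]
  · funext l
    obtain ⟨k, hk1, hk2⟩ := ((hbig l.toFinset).and (hτ l.toFinset)).exists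
    have h3 := hf2 k l (fun x hx => hk1 (List.mem_toFinset.2 hx))
    rw [← h3]
    by_cases hl : l.length ≤ m
    · rw [tr_of_le hl, tr_of_le (by simpa using hl)]
      congr 1
      exact (hk2 l (fun x hx => List.mem_toFinset.2 hx)).symm
    · rw [tr_of_lt (not_le.1 hl), tr_of_lt (by simpa using not_le.1 hl)]

theorem emb : T_EMB := by
  classical
  intro C m c d hol hbel
  set G := FinAut (tr m c) with hG
  choose g hg1 hg2 using fun k : ℕ => hbel (Finset.range k)
  -- orbits of initial tuples are almost everywhere constant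
  have h1 : ∀ n : ℕ, ∃ e : Fin n → ℕ, ∀ᶠ k in (HU : Filter ℕ),
      ∃ h ∈ G, ∀ i, h (e i) = g k i := by
    intro n
    obtain ⟨E, hE, hE2⟩ := hol n
    have h2 : ∀ᶠ k in (HU : Filter ℕ), ∃ e ∈ E, ∃ h ∈ G, ∀ i, h (e i) = g k i :=
      Eventually.of_forall fun k => hE2 fun i => g k i
    have h3 : (⋃ e ∈ E, {k : ℕ | ∃ h ∈ G, ∀ i, h (e i) = g k i}) ∈ HU := by
      filter_upwards [h2] with k hk
      obtain ⟨e, he, hk⟩ := hk
      exact mem_biUnion he hk
    rw [Ultrafilter.finite_biUnion_mem_iff hE] at h3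
    obtain ⟨e, -, he⟩ := h3
    exact ⟨e, he⟩
  choose e he using h1
  have h2 : ∀ n : ℕ, ∃ k, n ≤ k ∧ (∃ h ∈ G, ∀ i, h (e n i) = g k i) ∧
      ∃ h ∈ G, ∀ i, h (e (n + 1) i) = g k i := fun n =>
    ((hu_ge n).and ((he n).and (he (n + 1)))).exists
  choose κ hκ1 hκ2 hκ3 using h2
  -- consecutive steps
  have h3 : ∀ n : ℕ, ∃ h ∈ G, ∀ i < n + 1, h (g (κ (n + 1)) i) = g (κ n) i := by
    intro n
    obtain ⟨a, ha, ha2⟩ := hκ3 n
    obtain ⟨b, hb, hb2⟩ := hκ2 (n + 1)
    refine ⟨a * b⁻¹, G.mul_mem ha (G.inv_mem hb), fun i hi => ?_⟩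
    have e1 := ha2 ⟨i, hi⟩
    have e2 := hb2 ⟨i, hi⟩
    simp only at e1 e2
    rw [← e1, ← e2]
    simp
  choose q hq1 hq2 using h3
  let H : ℕ → Equiv.Perm ℕ := fun n => Nat.rec 1 (fun n x => x * q n) n
  have H0 : H 0 = 1 := rfl
  have H1 : ∀ n, H (n + 1) = H n * q n := fun n => rfl
  have HG : ∀ n, H n ∈ G := by
    intro n
    induction n with
    | zero => exact G.one_mem
    | succ n ih => exact G.mul_mem ih (hq1 n)
  have hstep : ∀ n i, i < n + 1 → H (n + 1) (g (κ (n + 1)) i) = H n (g (κ n) i) := by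
    intro n i hi
    rw [H1, Equiv.Perm.mul_apply, hq2 n i hi]
  have hst : ∀ n i, i ≤ n → H n (g (κ n) i) = H i (g (κ i) i) := by
    intro n
    induction n with
    | zero => intro i hi; obtain rfl : i = 0 := by omega
              rfl
    | succ n ih =>
      intro i hi
      rcases Nat.lt_or_ge i (n + 1) with h | h
      · rw [hstep n i h, ih i (by omega)]
      · obtain rfl : i = n + 1 := by omega
        rfl
  refine ⟨fun i => H i (g (κ i) i), ?_, ?_⟩
  · intro i j hij
    simp only at hij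
    let n := max i j + 1
    rw [← hst n i (by omega), ← hst n j (by omega)] at hij
    have h4 := (H n).injective hij
    refine hg1 (κ n) ?_ ?_ h4
    · have := hκ1 n
      simp only [Finset.coe_range, mem_Iio]
      omega
    · have := hκ1 n
      simp only [Finset.coe_range, mem_Iio]
      omega
  · intro l hl
    obtain ⟨n, hn⟩ : ∃ n, ∀ x ∈ l, x < n := by
      refine ⟨l.toFinset.sup id + 1, fun x hx => ?_⟩
      have : x ≤ l.toFinset.sup id := Finset.le_sup (f := id) (List.mem_toFinset.2 hx)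
      omega
    have h5 : l.map (fun i => H i (g (κ i) i)) = (l.map (g (κ n))).map (H n) := by
      rw [List.map_map]
      refine List.map_congr_left fun x hx => ?_
      exact (hst n x (hn x hx).le).symm
    rw [h5]
    have h6 := (mem_finAut_tr.1 (HG n)).2 (l.map (g (κ n))) (by simpa using hl)
    rw [h6, hg2]
    intro x hx
    rw [Finset.mem_range]
    have := hκ1 n
    have := hn x hx
    omega

end Pool.Agent.H39.UV
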